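import Mathlib
import Pool.Agent.Helper89.HBMain

namespace Pool.Agent.Results.MP_771c73_an.NoDenseExtension

/-- The property asked for in the question: for every closed subspace `G` of `E` and every bounded
sequence `φ n` in the dual of `G` there is a bounded sequence `f n` of extensions to `E` such that
the sum of `G` and the common kernel of the `f n` is dense in `E`. -/
def HasDenseExtensions (𝕜 E : Type) [RCLike 𝕜] [NormedAddCommGroup E] [NormedSpace 𝕜 E] : Prop :=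
  ∀ (G : Submodule 𝕜 E) (φ : ℕ → (G →L[𝕜] 𝕜)),
    IsClosed (G : Set E) → (∃ C : ℝ, ∀ n, ‖φ n‖ ≤ C) →
    ∃ f : ℕ → (E →L[𝕜] 𝕜), (∀ n (g : G), f n g = φ n g) ∧ (∃ C : ℝ, ∀ n, ‖f n‖ ≤ C) ∧
      Dense {x : E | ∃ g ∈ G, ∃ y : E, (∀ n, f n y = 0) ∧ x = g + y}

/-- Not every separable Banach space has the property. -/
theorem result (𝕜 : Type) [RCLike 𝕜] :
    ¬ ∀ (E : Type) [NormedAddCommGroup E] [NormedSpace 𝕜 E] [CompleteSpace E]
        [TopologicalSpace.SeparableSpace E], HasDenseExtensions 𝕜 E := by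
  intro h
  obtain ⟨E, i1, i2, i3, i4, G, φ, hG, hφ, hall⟩ := Pool.Agent.Helper89.HB.main 𝕜
  obtain ⟨f, hf, hb, hd⟩ := h E G φ hG hφ
  refine hall f hf hb ?_
  convert hd using 1
  ext x
  simp only [SetLike.mem_coe, Submodule.mem_sup, Submodule.mem_iInf, LinearMap.mem_ker,
    Set.mem_setOf_eq]
  constructor
  · rintro ⟨g, hg, y, hy, rfl⟩
    exact ⟨g, hg, y, hy, rfl⟩
  · rintro ⟨g, hg, y, hy, rfl⟩
    exact ⟨g, hg, y, hy, rfl⟩

end Pool.Agent.Results.MP_771c73_an.NoDenseExtension
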